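import Pool.Agent.H25.EE.TargetsB

/-!
# The entries near `e`
-/

set_option autoImplicit false

open Polynomial Finset

namespace Pool.Agent.H34.EE5.DIFF

open Pool.Agent.H25.EE

private theorem pow_diff (x y : ℂ) (hx : ‖x‖ ≤ 4) (hy : ‖y‖ ≤ 4) (i : ℕ) :
    ‖x ^ i - y ^ i‖ ≤ ‖x - y‖ * (i * 4 ^ i) := by
  induction i with
  | zero => simp
  | succ i ih =>
    have e : x ^ (i + 1) - y ^ (i + 1) = x * (x ^ i - y ^ i) + (x - y) * y ^ i := by ring
    have h1 : ‖x * (x ^ i - y ^ i)‖ ≤ 4 * (‖x - y‖ * (i * 4 ^ i)) := by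
      rw [norm_mul]
      exact mul_le_mul hx ih (norm_nonneg _) (by norm_num)
    have h2 : ‖(x - y) * y ^ i‖ ≤ ‖x - y‖ * 4 ^ i := by
      rw [norm_mul, norm_pow]
      exact mul_le_mul_of_nonneg_left (pow_le_pow_left₀ (norm_nonneg _) hy i) (norm_nonneg _)
    have h3 : 0 ≤ ‖x - y‖ * 4 ^ i := by positivity
    rw [e]
    refine (norm_add_le _ _).trans ?_
    have h4 : ‖x - y‖ * (((i + 1 : ℕ) : ℝ) * 4 ^ (i + 1)) =
        4 * (‖x - y‖ * (i * 4 ^ i)) + 4 * (‖x - y‖ * 4 ^ i) := by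
      push_cast
      ring
    rw [h4]
    linarith

private theorem ev_sum (P : ℤ[X]) (x : ℂ) : ev P x = ∑ i ∈ P.support, ((P.coeff i : ℤ) : ℂ) * x ^ i := by
  unfold ev toC
  rw [Polynomial.eval_map, Polynomial.eval₂_eq_sum, Polynomial.sum]
  rfl

private theorem ev_diff (P : ℤ[X]) (x y : ℂ) (hx : ‖x‖ ≤ 4) (hy : ‖y‖ ≤ 4) :
    ‖ev P x - ev P y‖ ≤ ‖x - y‖ * (plen P * (P.natDegree * 4 ^ P.natDegree)) := by
  rw [ev_sum, ev_sum, ← Finset.sum_sub_distrib]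
  refine (norm_sum_le _ _).trans ?_
  have e : ‖x - y‖ * (plen P * (P.natDegree * 4 ^ P.natDegree)) =
      ∑ i ∈ P.support, |(P.coeff i : ℝ)| * (‖x - y‖ * (P.natDegree * 4 ^ P.natDegree)) := by
    unfold plen
    rw [← Finset.sum_mul]
    ring
  rw [e]
  refine Finset.sum_le_sum fun i hi => ?_
  rw [← mul_sub, norm_mul]
  have h1 : ‖((P.coeff i : ℤ) : ℂ)‖ = |(P.coeff i : ℝ)| := by
    rw [Complex.norm_intCast]
  rw [h1]
  refine mul_le_mul_of_nonneg_left ((pow_diff x y hx hy i).trans ?_) (abs_nonneg _)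
  refine mul_le_mul_of_nonneg_left ?_ (norm_nonneg _)
  have hiD : i ≤ P.natDegree := Polynomial.le_natDegree_of_mem_supp i hi
  have hiR : (i : ℝ) ≤ P.natDegree := by exact_mod_cast hiD
  exact mul_le_mul hiR (pow_le_pow_right₀ (by norm_num) hiD) (by positivity) (Nat.cast_nonneg _)

private theorem mem_Ix {σ : ℚ} {J : ℕ} {a : Idx} (h : a ∈ Ix σ J) :
    a.1 ∈ nd J ∧ a.2 < mlt σ J a.1 := by
  unfold Ix at h
  rw [Finset.mem_sigma, Finset.mem_range] at h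
  exact h

private theorem sq_le {J : ℕ} {x : ℤ × ℤ} (hx : x ∈ nd J) :
    (x.1 : ℝ) ^ 2 ≤ (J : ℝ) ^ 2 ∧ (x.2 : ℝ) ^ 2 ≤ (J : ℝ) ^ 2 := by
  unfold nd at hx
  rw [Finset.mem_product, Finset.mem_Icc, Finset.mem_Icc] at hx
  obtain ⟨⟨h1, h2⟩, h3, h4⟩ := hx
  have a1 : -(J : ℝ) ≤ (x.1 : ℝ) := by
    have : ((-(J : ℤ) : ℤ) : ℝ) ≤ (x.1 : ℝ) := by exact_mod_cast h1
    push_cast at this
    exact this
  have a2 : (x.1 : ℝ) ≤ J := by exact_mod_cast h2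
  have a3 : -(J : ℝ) ≤ (x.2 : ℝ) := by
    have : ((-(J : ℤ) : ℤ) : ℝ) ≤ (x.2 : ℝ) := by exact_mod_cast h3
    push_cast at this
    exact this
  have a4 : (x.2 : ℝ) ≤ J := by exact_mod_cast h4
  exact ⟨sq_le_sq' a1 a2, sq_le_sq' a3 a4⟩

theorem pf_DIFF (hLEN : T_LEN) (hEXB : T_EXB) (hCARD : T_CARD) : T_DIFF := by
  intro π
  obtain ⟨C, hC, hlen⟩ := hLEN π
  refine ⟨30 + 2 * C, by linarith, fun J hJ a ha b hb x hx => ?_⟩
  obtain ⟨hdeg, hpl⟩ := hlen J hJ a ha b hb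
  obtain ⟨ha1, ha2⟩ := mem_Ix ha
  obtain ⟨hb1, hb2⟩ := mem_Ix hb
  have hJ2 : (2 : ℝ) ≤ J := by exact_mod_cast hJ
  have hJsq : (1 : ℝ) ≤ (J : ℝ) ^ 2 := one_le_pow₀ (by linarith)
  have ha3 : (a.2 : ℝ) ≤ (J : ℝ) ^ 2 := by
    have := (hCARD.2.2.2.2 J a.1 ha1).1
    exact_mod_cast (ha2.le.trans this)
  have hb3 : (b.2 : ℝ) ≤ (J : ℝ) ^ 2 := by
    have := (hCARD.2.2.2.2 J b.1 hb1).2
    exact_mod_cast (hb2.le.trans this)
  obtain ⟨q1, q2⟩ := sq_le ha1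
  obtain ⟨q3, q4⟩ := sq_le hb1
  have hEX := hEXB a b
  obtain ⟨P, hP⟩ : ∃ P : ℤ[X], P = mm π J a b := ⟨_, rfl⟩
  rw [← hP] at hdeg hpl ⊢
  have hD : (P.natDegree : ℝ) ≤ 7 * (J : ℝ) ^ 2 := by
    have h1 : (P.natDegree : ℝ) ≤ (a.2 : ℝ) + b.2 + EX a b := by exact_mod_cast hdeg
    linarith
  -- the two points
  have hee : ‖ee‖ ≤ 3 := by
    unfold ee
    rw [Complex.norm_real, Real.norm_eq_abs, abs_of_pos (Real.exp_pos 1)]
    exact Real.exp_one_lt_d9.le.trans (by norm_num)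
  have hx4 : ‖x‖ ≤ 4 := by
    have : ‖x‖ ≤ ‖x - ee‖ + ‖ee‖ := by
      have := norm_add_le (x - ee) ee
      rwa [sub_add_cancel] at this
    linarith
  have h1 := ev_diff P x ee hx4 (by linarith)
  refine h1.trans (mul_le_mul_of_nonneg_left ?_ (norm_nonneg _))
  have hlog2 : (1 / 2 : ℝ) ≤ Real.log 2 := by
    have := Real.log_two_gt_d9
    linarith
  have hlogJ : Real.log 2 ≤ Real.log J := Real.log_le_log (by norm_num) hJ2
  have hlog4 : Real.log 4 = 2 * Real.log 2 := by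
    rw [show (4 : ℝ) = 2 ^ 2 by norm_num, Real.log_pow]
    norm_num
  -- degree factor
  have hdf : (P.natDegree : ℝ) * 4 ^ P.natDegree ≤ Real.exp (14 * (J : ℝ) ^ 2 * Real.log 4) := by
    have h2 : (P.natDegree : ℝ) ≤ 4 ^ P.natDegree := by
      exact_mod_cast (Nat.lt_pow_self (by norm_num : 1 < 4)).le
    have h3 : (P.natDegree : ℝ) * 4 ^ P.natDegree ≤ 4 ^ P.natDegree * 4 ^ P.natDegree :=
      mul_le_mul_of_nonneg_right h2 (by positivity)
    refine h3.trans ?_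
    have h4 : (4 : ℝ) ^ P.natDegree = Real.exp (P.natDegree * Real.log 4) := by
      rw [mul_comm, Real.exp_mul, Real.exp_log (by norm_num), Real.rpow_natCast]
    rw [h4, ← Real.exp_add]
    apply Real.exp_le_exp.mpr
    have h5 : 0 ≤ Real.log 4 := Real.log_nonneg (by norm_num)
    have h6 : (P.natDegree : ℝ) * Real.log 4 ≤ 7 * (J : ℝ) ^ 2 * Real.log 4 :=
      mul_le_mul_of_nonneg_right hD h5
    linarith
  have hpl0 : 0 ≤ plen P := Finset.sum_nonneg fun i _ => abs_nonneg _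
  calc plen P * (P.natDegree * 4 ^ P.natDegree) ≤
        Real.exp (((a.2 : ℝ) + b.2) * Real.log J + C * (J : ℝ) ^ 2) *
          Real.exp (14 * (J : ℝ) ^ 2 * Real.log 4) :=
        mul_le_mul hpl hdf (by positivity) (Real.exp_pos _).le
    _ = Real.exp ((((a.2 : ℝ) + b.2) * Real.log J + C * (J : ℝ) ^ 2) +
          14 * (J : ℝ) ^ 2 * Real.log 4) := (Real.exp_add _ _).symm
    _ ≤ Real.exp ((30 + 2 * C) * (J : ℝ) ^ 2 * Real.log J) := by
        apply Real.exp_le_exp.mpr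
        have hl0 : 0 ≤ Real.log J := by linarith
        have h2 : ((a.2 : ℝ) + b.2) * Real.log J ≤ 2 * (J : ℝ) ^ 2 * Real.log J :=
          mul_le_mul_of_nonneg_right (by linarith) hl0
        have h3 : 14 * (J : ℝ) ^ 2 * Real.log 4 ≤ 28 * (J : ℝ) ^ 2 * Real.log J := by
          rw [hlog4]
          have : 28 * (J : ℝ) ^ 2 * Real.log 2 ≤ 28 * (J : ℝ) ^ 2 * Real.log J :=
            mul_le_mul_of_nonneg_left hlogJ (by positivity)
          linarith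
        have h4 : C * (J : ℝ) ^ 2 ≤ 2 * C * (J : ℝ) ^ 2 * Real.log J := by
          have h5 : (1 : ℝ) ≤ 2 * Real.log J := by linarith
          have h6 : C * (J : ℝ) ^ 2 * 1 ≤ C * (J : ℝ) ^ 2 * (2 * Real.log J) :=
            mul_le_mul_of_nonneg_left h5 (by positivity)
          linarith
        linarith

end Pool.Agent.H34.EE5.DIFF
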