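import Pool.Agent.H25.EE.TargetsB

/-!
# The nodes are separated
-/

set_option autoImplicit false

open Polynomial Finset

namespace Pool.Agent.H34.EE5.SPR

open Pool.Agent.H25.EE

private theorem det_zero {p q a b c d : ℤ} (h : a * d ≠ b * c) (h1 : p * a + q * c = 0)
    (h2 : p * b + q * d = 0) : p = 0 ∧ q = 0 := by
  have h3 : p * (a * d - b * c) = 0 := by linear_combination d * h1 - c * h2
  have h4 : q * (a * d - b * c) = 0 := by linear_combination a * h2 - b * h1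
  have h5 : a * d - b * c ≠ 0 := sub_ne_zero.mpr h
  exact ⟨(mul_eq_zero.mp h3).resolve_right h5, (mul_eq_zero.mp h4).resolve_right h5⟩

private theorem mem_nd {J : ℕ} {x : ℤ × ℤ} (hx : x ∈ nd J) :
    |(x.1 : ℝ)| ≤ J ∧ |(x.2 : ℝ)| ≤ J := by
  unfold nd at hx
  rw [Finset.mem_product, Finset.mem_Icc, Finset.mem_Icc] at hx
  obtain ⟨⟨h1, h2⟩, h3, h4⟩ := hx
  constructor
  · rw [abs_le]
    constructor
    · have : ((-(J : ℤ) : ℤ) : ℝ) ≤ (x.1 : ℝ) := by exact_mod_cast h1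
      push_cast at this
      exact this
    · exact_mod_cast h2
  · rw [abs_le]
    constructor
    · have : ((-(J : ℤ) : ℤ) : ℝ) ≤ (x.2 : ℝ) := by exact_mod_cast h3
      push_cast at this
      exact this
    · exact_mod_cast h4

private theorem sep (hM : T_MEAS) (u v B : ℤ × ℤ) (hd : u.1 * v.2 ≠ u.2 * v.1)
    (hB : lin B ≠ 0) : ∃ J0 : ℕ, ∀ J ≥ J0, ∀ x ∈ nd J, ∀ y ∈ nd J, x ≠ y →
      1 ≤ (J : ℝ) ^ 3 * ‖((((x.1 : ℝ) * lin u + x.2 * lin v) / lin B : ℝ) : ℂ) -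
        ((((y.1 : ℝ) * lin u + y.2 * lin v) / lin B : ℝ) : ℂ)‖ := by
  obtain ⟨c, hc, hm⟩ := hM
  obtain ⟨J0, hJ0⟩ := exists_nat_ge
    (4 * (|(u.1 : ℝ)| + |(u.2 : ℝ)| + |(v.1 : ℝ)| + |(v.2 : ℝ)|) ^ 2 * |lin B| / c)
  refine ⟨J0 + 1, fun J hJ x hx y hy hxy => ?_⟩
  have hJ1 : (1 : ℝ) ≤ J := by exact_mod_cast (by omega : 1 ≤ J)
  have hJ2 : (J0 : ℝ) ≤ J := by exact_mod_cast (by omega : J0 ≤ J)
  obtain ⟨hx1, hx2⟩ := mem_nd hx
  obtain ⟨hy1, hy2⟩ := mem_nd hy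
  obtain ⟨p, hp⟩ : ∃ p : ℤ, p = x.1 - y.1 := ⟨_, rfl⟩
  obtain ⟨q, hq⟩ : ∃ q : ℤ, q = x.2 - y.2 := ⟨_, rfl⟩
  obtain ⟨M, hMd⟩ : ∃ M : ℝ, M = |(u.1 : ℝ)| + |(u.2 : ℝ)| + |(v.1 : ℝ)| + |(v.2 : ℝ)| := ⟨_, rfl⟩
  rw [← hMd] at hJ0
  have hpR : (p : ℝ) = x.1 - y.1 := by rw [hp]; push_cast; ring
  have hqR : (q : ℝ) = x.2 - y.2 := by rw [hq]; push_cast; ring
  have hpa : |(p : ℝ)| ≤ 2 * J := by
    rw [hpR]
    exact (abs_sub _ _).trans (by linarith)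
  have hqa : |(q : ℝ)| ≤ 2 * J := by
    rw [hqR]
    exact (abs_sub _ _).trans (by linarith)
  have hne : p * u.1 + q * v.1 ≠ 0 ∨ p * u.2 + q * v.2 ≠ 0 := by
    by_contra hcon
    push Not at hcon
    obtain ⟨h1, h2⟩ := det_zero hd hcon.1 hcon.2
    apply hxy
    ext
    · omega
    · omega
  have h1 := hm _ _ hne
  have he : ((p * u.1 + q * v.1 : ℤ) : ℝ) + ((p * u.2 + q * v.2 : ℤ) : ℝ) * Real.exp 1 =
      p * lin u + q * lin v := by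
    unfold lin
    push_cast
    ring
  rw [he] at h1
  have hb : |((p * u.1 + q * v.1 : ℤ) : ℝ)| + |((p * u.2 + q * v.2 : ℤ) : ℝ)| ≤ 2 * J * M := by
    push_cast
    have a1 : |(p : ℝ) * u.1 + q * v.1| ≤ 2 * J * |(u.1 : ℝ)| + 2 * J * |(v.1 : ℝ)| := by
      refine (abs_add_le _ _).trans (add_le_add ?_ ?_)
      · rw [abs_mul]
        exact mul_le_mul_of_nonneg_right hpa (abs_nonneg _)
      · rw [abs_mul]
        exact mul_le_mul_of_nonneg_right hqa (abs_nonneg _)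
    have a2 : |(p : ℝ) * u.2 + q * v.2| ≤ 2 * J * |(u.2 : ℝ)| + 2 * J * |(v.2 : ℝ)| := by
      refine (abs_add_le _ _).trans (add_le_add ?_ ?_)
      · rw [abs_mul]
        exact mul_le_mul_of_nonneg_right hpa (abs_nonneg _)
      · rw [abs_mul]
        exact mul_le_mul_of_nonneg_right hqa (abs_nonneg _)
    rw [hMd]
    linarith
  have hpos : 0 < |((p * u.1 + q * v.1 : ℤ) : ℝ)| + |((p * u.2 + q * v.2 : ℤ) : ℝ)| := by
    rcases hne with h | h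
    · have : 0 < |((p * u.1 + q * v.1 : ℤ) : ℝ)| := abs_pos.mpr (by exact_mod_cast h)
      linarith [abs_nonneg ((p * u.2 + q * v.2 : ℤ) : ℝ)]
    · have : 0 < |((p * u.2 + q * v.2 : ℤ) : ℝ)| := abs_pos.mpr (by exact_mod_cast h)
      linarith [abs_nonneg ((p * u.1 + q * v.1 : ℤ) : ℝ)]
  have h2 : c / (2 * J * M) ^ 2 ≤ |(p : ℝ) * lin u + q * lin v| := by
    refine le_trans ?_ h1
    exact div_le_div_of_nonneg_left hc.le (pow_pos hpos 2) (pow_le_pow_left₀ hpos.le hb 2)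
  have hBp : 0 < |lin B| := abs_pos.mpr hB
  have hJM : 0 < 2 * (J : ℝ) * M := lt_of_lt_of_le hpos hb
  have hMp : 0 < M := pos_of_mul_pos_right hJM (by linarith)
  -- the difference
  have h3 : ‖((((x.1 : ℝ) * lin u + x.2 * lin v) / lin B : ℝ) : ℂ) -
        ((((y.1 : ℝ) * lin u + y.2 * lin v) / lin B : ℝ) : ℂ)‖ =
      |(p : ℝ) * lin u + q * lin v| / |lin B| := by
    rw [← Complex.ofReal_sub, Complex.norm_real, Real.norm_eq_abs, ← abs_div]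
    congr 1
    rw [hpR, hqR]
    ring
  rw [h3]
  have h4 : 4 * M ^ 2 * |lin B| ≤ J * c := by
    have := (div_le_iff₀ hc).mp (hJ0.trans hJ2)
    exact this
  have h5 : c / (2 * J * M) ^ 2 / |lin B| ≤ |(p : ℝ) * lin u + q * lin v| / |lin B| :=
    div_le_div_of_nonneg_right h2 hBp.le
  have hJ3 : (0 : ℝ) < (J : ℝ) ^ 3 := by positivity
  have h6 : (J : ℝ) ^ 3 * (c / (2 * J * M) ^ 2 / |lin B|) = (J * c) / (4 * M ^ 2 * |lin B|) := by
    have : (J : ℝ) ≠ 0 := by linarith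
    field_simp
    ring
  calc (1 : ℝ) ≤ (J * c) / (4 * M ^ 2 * |lin B|) := by
        rw [le_div_iff₀ (by positivity)]
        linarith
    _ = (J : ℝ) ^ 3 * (c / (2 * J * M) ^ 2 / |lin B|) := h6.symm
    _ ≤ _ := mul_le_mul_of_nonneg_left h5 hJ3.le

theorem pf_SPR (hMEAS : T_MEAS) (hLNZ : T_LNZ) : T_SPR := by
  intro π
  obtain ⟨J1, h1⟩ := sep hMEAS π.x1 π.x2 π.B π.hx (hLNZ _ π.hB)
  obtain ⟨J2, h2⟩ := sep hMEAS π.y1 π.y2 π.A π.hy (hLNZ _ π.hA)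
  refine ⟨max J1 J2, fun J hJ x hx y hy hxy => ⟨?_, ?_⟩⟩
  · exact h1 J (le_trans (le_max_left _ _) hJ) x hx y hy hxy
  · exact h2 J (le_trans (le_max_right _ _) hJ) x hx y hy hxy

end Pool.Agent.H34.EE5.SPR
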